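import Mathlib
import Pool.Agent.N846.DU.All
import Pool.Agent.N846.DU.Left
import Pool.Agent.N846.DU.Gam
import Pool.Agent.N846.DU.Diag

/-!
# Violations of the Ramanujan conjecture on `GL(n)` over a number field: a universal density theorem

Let `K` be a number field, `n ≥ 1`, and for a unitary cuspidal automorphic representation `π` of `GL_n` over `K` and a place
`v` let `θ_{π,v} ≥ 0` be the largest exponent of `π_v` (`max_i |log_{Nv} |α_{i,v}||` if `π_v` is unramified). The conjecture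
says that `θ_{π,v} = 0`; it is known that `θ_{π,v} ≤ 1/2 - 1/(n² + 1)`. Let `dens(δ) = (1 - 2 δ) / max(1, 4 δ)`. For **every**
family of pairwise different `π_f` (any levels, any archimedean types), with constants which depend only on `K`, `n`, `ε`:

1. if `π_f`, `f ∈ T`, is unramified at `v` with `θ_{π_f,v} ≥ δ`, and all analytic conductors of the pairs
   `L(s, π_f × π_g~)`, `f, g ∈ T`, are at most `Q`, then `T` is finite and has at most `A (Nv^{2 n²} Q)^{dens(δ) + ε}` elements;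
2. the same with `A Q^{dens(δ) + ε}` for an archimedean place `v` and `π_f` with an exceptional parameter of the same type:
   the Langlands parameter of `π_{f,v}` contains `σ |.|^{-s_f}`, `Re s_f ≥ δ`, with `σ` unitary and independent of `f` (then
   the Gamma factors of `L(s, π_f × π_g~)` contain `Γ_ℝ(s + κ)` with `κ = -(s_f + conj s_g)`);
3. the same as 1. for all finite places, ramified or not, and `π_f` with an exceptional parameter of the same type: `π_{f,v}`
   contains an essentially square integrable `Δ ⊗ |.|^{-s_f}` with `Δ` independent of `f`, `a_f = Nv^{s_f}`, `|a_f| ≥ Nv^δ`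
   (then the local factor `L(s, π_{f,v} × π_{g,v}~)` has a factor `(1 - a_f conj(a_g) Nv^{-s})^{-1}`);
4. if for every `f ∈ T` there is a place `v` with `Nv ≤ Z` at which `π_f` is unramified and `θ_{π_f,v} ≥ δ`, then `T` has at
   most `A Z² (Z^{2 n²} Q)^{dens(δ) + ε}` elements;
5. let `C(π)` be the analytic conductor. As `C(π × π'~) ≤ B (C(π) C(π'))^n` with `B` depending on `K` only (Bushnell,
   Henniart), among **all** `π` with `C(π) ≤ X` at most `A Z² (B Z^{2 n²} X^{2 n})^{dens(δ) + ε}` have `θ_{π,v} ≥ δ` at an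
   unramified place `v` with `Nv ≤ Z`.

There are about `X^{n + 1}` representations with `C(π) ≤ X` (Brumley, Milićević), and the exponent in 5. is `2 n (1 - 2 δ)` for
`δ ≤ 1/4` and `n (1 - 2 δ) / (2 δ)` for `δ ≥ 1/4`. So for `n ≥ 3` a proportion `1 - X^{-c}` of all `π` with `C(π) ≤ X` satisfies
`θ_{π,v} < δ` at all unramified places with `Nv ≤ X^c`, for every `δ > 1/4 - 1/(4 n)`, `c = c(δ) > 0`. And for all `n ≥ 3` and
`δ > 1/4` the exponent is smaller than `(n + 1)(1 - 2 δ / (n - 1))`, Sarnak's density hypothesis for this family (which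
interpolates linearly between `δ = 0` and the trivial representation). It tends to `0` for `δ → 1/2`.

The structure `GLFamily` lists what is used, all of it known for unitary cuspidal representations with central characters
trivial on the positive reals (Jacquet, Piatetski-Shapiro, Shalika; Moeglin, Waldspurger): unitarity, the Jacquet-Shalika
bounds, and for `L(s, π × π'~)` absolute convergence in `Re s > 1`, continuation (a simple pole at `s = 1` if and only if
`π = π'`), polynomial growth in vertical strips (not assumed to be uniform) and the functional equation. The numbers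
`u(v, k, j)` are the normalised coefficients of `log L(s, π × π~)`, a vector for every `π` such that the coefficients of
`log L(s, π × π'~)` are the scalar products (at ramified places this is possible as
`L(s, Δ_m(ρ) × Δ_{m'}(ρ)~) = ∏_{l < min(m, m')} L(s + (m + m')/2 - 1 - l, ρ × ρ~)`, a sum of products of a function of `m`
and a function of `m'` on the level of logarithms). No trace formula is used and nothing on the size of the family.

The proof. Let `s_f` be minus the exceptional parameter. For `f ≠ g` the function `L(s, π_f × π_g~)` (without its Euler factor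
at `v` if `v` is finite) vanishes at `s_f + conj s_g`, a trivial zero. The smoothed sums
`∑_m a_{f×g}(m) m^{-s_f - conj s_g} V(log(Y/Nm))` are, for every ideal `m`, positive semidefinite in `(f, g)`, and `m = 1`
contributes `|T|²/2`. The terms `f ≠ g` are `≪ Q^{1/2 + σ + ε} Y^{-σ - 2δ}` for any `σ > 0` by shifting the line of
integration past the zero, and the terms `f = g` are `≪ Y^{1 - 2 δ} Q^ε`. Take `Y = Q^{1 + ε}` or `Y = Q^{1/(4 δ) + ε}`.
-/

set_option autoImplicit false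

namespace Pool.Agent.Results.MP_8410ab_nt.UniversalDensity

open NumberField IsDedekindDomain
open Pool.Agent.N846.DT (dens)
open Pool.Agent.N846.DU (GLFamily LocalFactor Nv VX density_all left gam diag eul)

/-- **A universal density theorem for the violations of the Ramanujan conjecture on `GL(n)` over a number field.** -/
theorem result (K : Type) [Field K] [NumberField K] (n : ℕ) {ε : ℝ} (hε : 0 < ε) : ∃ A : ℝ, 0 < A ∧
    ∀ (ι : Type) (S : ι → Finset (HeightOneSpectrum (𝓞 K))) (α : ι → HeightOneSpectrum (𝓞 K) → Fin n → ℂ)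
      (u : ι → VX K → ℂ) (q : ι → ι → ℝ) (κ : ι → ι → Fin (n ^ 2 * Module.finrank ℚ K) → ℂ),
      GLFamily n (n ^ 2 * Module.finrank ℚ K) S α u q κ →
      (∀ (v : HeightOneSpectrum (𝓞 K)) (δ Q : ℝ) (T : Set ι), 0 ≤ δ → 1 ≤ Q →
        (∀ f ∈ T, v ∉ S f ∧ ∃ k, δ ≤ |Real.logb (Nv v) ‖α f v k‖|) →
        (∀ f ∈ T, ∀ g ∈ T, q f g * ∏ j, (1 + ‖κ f g j‖) ≤ Q) →
        T.Finite ∧ (T.ncard : ℝ) ≤ A * (Nv v ^ (2 * n ^ 2) * Q) ^ (dens δ + ε)) ∧
      (∀ (δ Q : ℝ) (T : Set ι) (s : ι → ℂ), 0 ≤ δ → 1 ≤ Q →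
        (∀ f ∈ T, δ ≤ (s f).re ∧ (s f).re ≤ 1 / 2) →
        (∀ f ∈ T, ∀ g ∈ T, f ≠ g → ∃ j, κ f g j = -(s f + (starRingEnd ℂ) (s g))) →
        (∀ f ∈ T, ∀ g ∈ T, q f g * ∏ j, (1 + ‖κ f g j + (s f + (starRingEnd ℂ) (s g))‖) ≤ Q) →
        T.Finite ∧ (T.ncard : ℝ) ≤ A * Q ^ (dens δ + ε)) ∧
      (∀ (v : HeightOneSpectrum (𝓞 K)) (δ Q : ℝ) (T : Set ι) (a : ι → ℂ), 0 ≤ δ → 1 ≤ Q →
        (∀ f ∈ T, Nv v ^ δ ≤ ‖a f‖ ∧ ‖a f‖ ≤ Nv v ^ (1 / 2 : ℝ)) →
        (∀ f ∈ T, ∀ g ∈ T, f ≠ g → ∃ γ : Fin (n ^ 2) → ℂ, LocalFactor v (u f) (u g) γ ∧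
          ∃ i, γ i = a f * (starRingEnd ℂ) (a g)) →
        (∀ f ∈ T, ∀ g ∈ T, q f g * ∏ j, (1 + ‖κ f g j‖) ≤ Q) →
        T.Finite ∧ (T.ncard : ℝ) ≤ A * (Nv v ^ (2 * n ^ 2) * Q) ^ (dens δ + ε)) ∧
      (∀ (δ Q Z : ℝ) (T : Set ι), 0 ≤ δ → 1 ≤ Q → 1 ≤ Z →
        (∀ f ∈ T, ∃ v, Nv v ≤ Z ∧ v ∉ S f ∧ ∃ k, δ ≤ |Real.logb (Nv v) ‖α f v k‖|) →
        (∀ f ∈ T, ∀ g ∈ T, q f g * ∏ j, (1 + ‖κ f g j‖) ≤ Q) →
        T.Finite ∧ (T.ncard : ℝ) ≤ A * Z ^ 2 * (Z ^ (2 * n ^ 2) * Q) ^ (dens δ + ε)) ∧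
      (∀ (C : ι → ℝ) (B : ℝ), 1 ≤ B → (∀ f, 1 ≤ C f) →
        (∀ f g, q f g * ∏ j, (1 + ‖κ f g j‖) ≤ B * (C f * C g) ^ n) →
        ∀ (δ X Z : ℝ), 0 ≤ δ → 1 ≤ X → 1 ≤ Z →
          {f | C f ≤ X ∧ ∃ v, Nv v ≤ Z ∧ v ∉ S f ∧ ∃ k, δ ≤ |Real.logb (Nv v) ‖α f v k‖|}.Finite ∧
          ({f | C f ≤ X ∧ ∃ v, Nv v ≤ Z ∧ v ∉ S f ∧ ∃ k, δ ≤ |Real.logb (Nv v) ‖α f v k‖|}.ncard : ℝ) ≤
            A * Z ^ 2 * (B * Z ^ (2 * n ^ 2) * X ^ (2 * n)) ^ (dens δ + ε)) :=
  density_all (left gam) (diag (left gam)) eul K n (n ^ 2 * Module.finrank ℚ K) hε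

end Pool.Agent.Results.MP_8410ab_nt.UniversalDensity
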